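import Mathlib
import Pool.Agent.Q256.UG.Stm

set_option autoImplicit false

/-! Job RTC of project UG (helper256): forms with a given rational zero. -/

namespace Pool.Agent.Q130.UG

open Finset MvPolynomial
open Pool.Agent.Q256.UP
open Pool.Agent.Q256.UG

/-- exponent of `x^i y^(d-i)` -/
noncomputable def mo (d i : ℕ) : Fin 2 →₀ ℕ := Finsupp.single 0 i + Finsupp.single 1 (d - i)

theorem mo_zero (d i : ℕ) : mo d i 0 = i := by
  unfold mo; simp [Finsupp.add_apply, Finsupp.single_apply]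

theorem mo_degree (d i : ℕ) (hi : i ≤ d) : (mo d i).degree = d := by
  unfold mo
  rw [map_add, Finsupp.degree_single, Finsupp.degree_single]
  omega

theorem ld_eq (d : ℕ) (F : MvPolynomial (Fin 2) ℤ) (b a : ℤ) :
    ld d F b a = ∑ i : Fin d, b ^ (i : ℕ) * (F.coeff (mo d i) * a ^ (d - (i : ℕ))) +
      b ^ d * F.coeff (mo d d) := by
  unfold ld
  rw [← sum_range_reflect, sum_range_succ]
  congr 1
  · rw [← Fin.sum_univ_eq_sum_range (fun i => F.coeff (Finsupp.single 0 (d - (d + 1 - 1 - i)) +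
      Finsupp.single 1 (d + 1 - 1 - i)) * b ^ (d - (d + 1 - 1 - i)) * a ^ (d + 1 - 1 - i))]
    refine sum_congr rfl (fun i _ => ?_)
    have h1 : d - (d - (i : ℕ)) = i := by have := i.2; omega
    have h2 : d + 1 - 1 - (i : ℕ) = d - i := by omega
    simp only [h2, h1]
    unfold mo
    ring
  · have h2 : d + 1 - 1 - d = 0 := by omega
    simp only [h2, Nat.sub_zero]
    unfold mo
    rw [Nat.sub_self, pow_zero]
    ring

theorem ld_add (d : ℕ) (F G : MvPolynomial (Fin 2) ℤ) (b a : ℤ) :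
    ld d (F + G) b a = ld d F b a + ld d G b a := by
  unfold ld
  rw [← sum_add_distrib]
  refine sum_congr rfl (fun i _ => ?_)
  rw [coeff_add]; ring

/-- digits with the coprime factor. -/
theorem dg (d : ℕ) (b a : ℤ) (hb : b ≠ 0) (hab : IsCoprime a b) (c : Fin d → ℤ) (f : ℤ)
    (hc : ∀ j, b ∣ c j → c j = 0)
    (h : ∑ i : Fin d, b ^ (i : ℕ) * (c i * a ^ (d - (i : ℕ))) + b ^ d * f = 0) :
    (∀ j, c j = 0) ∧ f = 0 := by
  have key : ∀ j : Fin d, b ∣ c j * a ^ (d - (j : ℕ)) → c j = 0 := by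
    intro j hj
    apply hc j
    have h1 : IsCoprime b (a ^ (d - (j : ℕ))) := (hab.symm).pow_right
    exact h1.dvd_of_dvd_mul_right hj
  have h1 := digits b hb d (fun j => c j * a ^ (d - (j : ℕ))) f (fun j hj => by
    have : b ∣ c j * a ^ (d - (j : ℕ)) := hj
    show c j * a ^ (d - (j : ℕ)) = 0
    rw [key j this, zero_mul]) h
  refine ⟨fun j => key j ?_, h1.2⟩
  have h2 := h1.1 j
  have h3 : c j * a ^ (d - (j : ℕ)) = 0 := h2
  rw [h3]
  exact dvd_zero _

/-- the modification -/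
noncomputable def md (d μ H : ℕ) (p : (Fin d → Fin μ) × Fin (H + 1)) : MvPolynomial (Fin 2) ℤ :=
  ∑ i ∈ range (d + 1), monomial (mo d i) (if h : i < d then ((p.1 ⟨i, h⟩ : ℕ) : ℤ) else ((p.2 : ℕ) : ℤ))

theorem md_coeff (d μ H : ℕ) (p : (Fin d → Fin μ) × Fin (H + 1)) (α : Fin 2 →₀ ℕ) :
    (md d μ H p).coeff α = if α 0 ∈ range (d + 1) ∧ α = mo d (α 0) then
      (if h : α 0 < d then ((p.1 ⟨α 0, h⟩ : ℕ) : ℤ) else ((p.2 : ℕ) : ℤ)) else 0 := by
  classical
  unfold md
  rw [coeff_sum]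
  simp only [coeff_monomial]
  by_cases h1 : α 0 ∈ range (d + 1) ∧ α = mo d (α 0)
  · rw [if_pos h1, sum_eq_single (α 0)]
    · rw [if_pos h1.2.symm]
    · intro i _ hi
      rw [if_neg]
      intro h
      apply hi
      rw [← h, mo_zero]
    · intro h
      exact absurd h1.1 h
  · rw [if_neg h1]
    apply sum_eq_zero
    intro i hi
    rw [if_neg]
    intro h
    apply h1
    rw [← h, mo_zero]
    exact ⟨hi, rfl⟩

theorem md_mem (d μ H : ℕ) (hμ : μ ≤ H + 1) (p : (Fin d → Fin μ) × Fin (H + 1)) :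
    md d μ H p ∈ PBox d (1 * H) := by
  classical
  constructor
  · unfold md
    refine (totalDegree_finsetSum _ _).trans ?_
    apply Finset.sup_le
    intro i hi
    refine (totalDegree_monomial_le _ _).trans ?_
    have h1 : (Finsupp.sum (mo d i) fun _ e => e) = (mo d i).degree := rfl
    have h2 := mem_range.1 hi
    show (Finsupp.sum (mo d i) fun _ e => e) ≤ d
    rw [h1, mo_degree d i (by omega)]
  · intro α
    rw [md_coeff, one_mul]
    split_ifs with h1 h2
    · rw [Nat.abs_cast]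
      have := (p.1 ⟨α 0, h2⟩).2
      exact_mod_cast (by omega : (p.1 ⟨α 0, h2⟩ : ℕ) ≤ H)
    · rw [Nat.abs_cast]
      have := p.2.2
      exact_mod_cast (by omega : (p.2 : ℕ) ≤ H)
    · simp

theorem md_ld (d μ H : ℕ) (p : (Fin d → Fin μ) × Fin (H + 1)) (b a : ℤ) :
    ld d (md d μ H p) b a = ∑ i : Fin d, b ^ (i : ℕ) * (((p.1 i : ℕ) : ℤ) * a ^ (d - (i : ℕ))) +
      b ^ d * ((p.2 : ℕ) : ℤ) := by
  rw [ld_eq]
  congr 1
  · refine sum_congr rfl (fun i _ => ?_)
    rw [md_coeff, mo_zero, if_pos ⟨mem_range.2 (by have := i.2; omega), rfl⟩, dif_pos i.2]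
  · rw [md_coeff, mo_zero, if_pos ⟨mem_range.2 (by omega), rfl⟩, dif_neg (lt_irrefl d)]

theorem rtc : S_RTC := by
  refine ⟨?_, ?_⟩
  · intro d H b a hab hb
    have hb0 : (b : ℤ) ≠ 0 := by exact_mod_cast (by omega : b ≠ 0)
    have h := modify (d := d) (H := H) (K := 1) {F | F ∈ PBox d H ∧ ld d F b a = 0}
      (fun F hF => hF.1) (md d (min b (H + 1)) H) (md_mem d _ H (min_le_right _ _)) (by
        intro F hF F' hF' m m' h
        have h1 : ld d (F + md d (min b (H + 1)) H m) b a =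
          ld d (F' + md d (min b (H + 1)) H m') b a := by rw [h]
        rw [ld_add, ld_add, hF.2, hF'.2, zero_add, zero_add, md_ld, md_ld] at h1
        have h2 := dg d b a hb0 hab (fun i => ((m.1 i : ℕ) : ℤ) - ((m'.1 i : ℕ) : ℤ))
          (((m.2 : ℕ) : ℤ) - ((m'.2 : ℕ) : ℤ)) (by
            intro j hj
            apply Int.eq_zero_of_abs_lt_dvd hj
            rw [abs_lt]
            have h4 := (m.1 j).2
            have h5 := (m'.1 j).2
            have h6 : min b (H + 1) ≤ b := min_le_left _ _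
            constructor <;> omega) (by
            have h3 : ∑ i : Fin d, (b : ℤ) ^ (i : ℕ) *
                ((((m.1 i : ℕ) : ℤ) - ((m'.1 i : ℕ) : ℤ)) * a ^ (d - (i : ℕ))) =
                ∑ i : Fin d, (b : ℤ) ^ (i : ℕ) * (((m.1 i : ℕ) : ℤ) * a ^ (d - (i : ℕ))) -
                ∑ i : Fin d, (b : ℤ) ^ (i : ℕ) * (((m'.1 i : ℕ) : ℤ) * a ^ (d - (i : ℕ))) := by
              rw [← sum_sub_distrib]
              exact sum_congr rfl (fun i _ => by ring)
            rw [h3]
            linear_combination h1)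
        refine Prod.ext (funext fun j => Fin.ext ?_) (Fin.ext ?_)
        · have h7 : ((m.1 j : ℕ) : ℤ) - ((m'.1 j : ℕ) : ℤ) = 0 := h2.1 j
          omega
        · have := h2.2
          omega)
    rw [Nat.card_prod, Nat.card_fun, Nat.card_fin, Nat.card_fin, Nat.card_fin] at h
    exact h
  · intro d H b a F hF hab hb h b' a'
    have hb0 : b ≠ 0 := by
      intro h0
      rw [h0] at hb
      have : (0 : ℤ) ≤ H := by positivity
      omega
    rw [ld_eq] at h
    have h2 := dg d b a hb0 hab (fun i => F.coeff (mo d i)) (F.coeff (mo d d)) (by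
      intro j hj
      apply Int.eq_zero_of_abs_lt_dvd hj
      exact lt_of_le_of_lt (hF.2 _) hb) h
    rw [ld_eq]
    have h3 : ∀ i : Fin d, F.coeff (mo d i) = 0 := h2.1
    rw [h2.2, mul_zero, add_zero]
    apply sum_eq_zero
    intro i _
    rw [h3 i, zero_mul, mul_zero]

end Pool.Agent.Q130.UG
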