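import Mathlib
import Pool.Agent.Q130.UG.RTC

set_option autoImplicit false

/-! Job RSC of project UG (helper256). -/

namespace Pool.Agent.Q130.UG

open Finset MvPolynomial
open Pool.Agent.Q256.UP
open Pool.Agent.Q256.UG

theorem sum_sq (n : ℕ) : ∑ b ∈ Icc 1 (n + 1), 1 / (b : ℝ) ^ 2 ≤ 2 - 1 / ((n : ℝ) + 1) := by
  induction n with
  | zero => norm_num
  | succ n ih =>
    rw [Finset.sum_Icc_succ_top (by omega)]
    have h1 : 1 / (((n + 1 + 1 : ℕ) : ℝ)) ^ 2 ≤ 1 / ((n : ℝ) + 1) - 1 / (((n + 1 : ℕ) : ℝ) + 1) := by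
      push_cast
      have h2 : (0 : ℝ) < (n : ℝ) + 1 := by positivity
      rw [div_sub_div _ _ (by positivity) (by positivity), div_le_div_iff₀ (by positivity) (by positivity)]
      nlinarith
    linarith

theorem pow_bd (d H b : ℕ) (hd : 7 ≤ d) (hH : 1 ≤ H) (hb : H < b ^ d) (hb1 : 1 ≤ b) :
    (H : ℝ) ^ ((4 : ℝ) / 7) ≤ (b : ℝ) ^ (d - 3) := by
  have h0 : (1 : ℝ) ≤ b := by exact_mod_cast hb1
  have h1 : (H : ℝ) ≤ (b : ℝ) ^ d := by exact_mod_cast hb.le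
  have h2 : (H : ℝ) ^ ((4 : ℝ) / 7) ≤ ((b : ℝ) ^ d) ^ ((4 : ℝ) / 7) :=
    Real.rpow_le_rpow (by positivity) h1 (by norm_num)
  refine h2.trans ?_
  rw [← Real.rpow_natCast, ← Real.rpow_mul (by positivity), ← Real.rpow_natCast]
  apply Real.rpow_le_rpow_of_exponent_le h0
  rw [Nat.cast_sub (by omega)]
  have : (7 : ℝ) ≤ d := by exact_mod_cast hd
  push_cast
  linarith

theorem rsc : S_RTC → S_RSC := by
  classical
  rintro ⟨h1, h2⟩ d hd
  refine ⟨10 * 5 ^ NC d, ?_, ?_⟩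
  · have : (1 : ℝ) ≤ 5 ^ NC d := one_le_pow₀ (by norm_num)
    linarith
  intro H hH
  have hHr : (1 : ℝ) ≤ H := by exact_mod_cast hH
  set P : Finset (MvPolynomial (Fin 2) ℤ) := (finite_pbox d H).toFinset with hP
  have memP : ∀ F, F ∈ P ↔ F ∈ PBox d H := by intro F; simp [hP]
  set g : ℕ → ℤ → Finset (MvPolynomial (Fin 2) ℤ) := fun b a => P.filter (fun F => ld d F b a = 0)
    with hg
  set B : Finset ℕ := (Icc 1 (H + 1)).filter (fun b => H < b ^ d) with hB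
  set A : ℕ → Finset ℤ := fun b => (Icc (-(2 * b : ℤ)) (2 * b)).filter (fun a => IsCoprime a (b : ℤ))
    with hA
  have hset : {F | F ∈ PBox d H ∧ F ∈ RS d H} ⊆ ↑(B.biUnion fun b => (A b).biUnion (g b)) := by
    rintro F ⟨hF, a, b, hab, hb, hba, hbd, hld⟩
    have key : ∀ (b : ℕ) (a : ℤ), b ∈ B → a ∈ A b → ld d F b a = 0 →
        F ∈ B.biUnion fun b => (A b).biUnion (g b) := by
      intro b a hb ha h
      rw [mem_biUnion]
      refine ⟨b, hb, ?_⟩
      rw [mem_biUnion]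
      refine ⟨a, ha, ?_⟩
      rw [hg, mem_filter]
      exact ⟨(memP F).2 hF, h⟩
    by_cases hbH : b ≤ H + 1
    · obtain ⟨b', rfl⟩ := Int.eq_ofNat_of_zero_le (by omega : 0 ≤ b)
      apply key b' a _ _ hld
      · rw [hB, mem_filter, mem_Icc]
        refine ⟨⟨by omega, by omega⟩, ?_⟩
        exact_mod_cast hbd
      · rw [hA, mem_filter, mem_Icc]
        exact ⟨abs_le.1 hba, hab⟩
    · have h3 := h2 d H b a F hF hab (by omega) hld
      apply key (H + 1) 1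
      · rw [hB, mem_filter, mem_Icc]
        refine ⟨⟨by omega, le_refl _⟩, ?_⟩
        calc H < H + 1 := by omega
          _ = (H + 1) ^ 1 := (pow_one _).symm
          _ ≤ (H + 1) ^ d := Nat.pow_le_pow_right (by omega) (by omega)
      · rw [hA, mem_filter, mem_Icc]
        refine ⟨⟨by omega, by push_cast; omega⟩, isCoprime_one_left⟩
      · exact h3 _ _
  have hcard : Nat.card {F | F ∈ PBox d H ∧ F ∈ RS d H} ≤
      ∑ b ∈ B, ∑ a ∈ A b, #(g b a) := by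
    rw [Nat.card_coe_set_eq]
    refine (Set.ncard_le_ncard hset (Finset.finite_toSet _)).trans ?_
    rw [Set.ncard_coe_finset]
    refine card_biUnion_le.trans (sum_le_sum fun b _ => card_biUnion_le)
  have hgb : ∀ b ∈ B, ∀ a ∈ A b, (#(g b a) : ℝ) ≤ (5 * (H : ℝ)) ^ NC d / ((b : ℝ) ^ d * H) := by
    intro b hb a ha
    rw [hB, mem_filter, mem_Icc] at hb
    rw [hA, mem_filter] at ha
    have h3 := h1 d H b a ha.2 hb.1.1
    have h4 : Nat.card {F | F ∈ PBox d H ∧ ld d F b a = 0} = #(g b a) := by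
      rw [Nat.card_coe_set_eq, ← Set.ncard_coe_finset]
      congr 1
      ext F
      rw [hg]
      simp only [Set.mem_setOf_eq, coe_filter]
      rw [memP]
    rw [h4, min_eq_left hb.1.2] at h3
    have h5 : (#(g b a) : ℝ) * ((b : ℝ) ^ d * ((H : ℝ) + 1)) ≤ (2 * (2 * (H : ℝ)) + 1) ^ NC d := by
      exact_mod_cast h3
    have hb0 : (0 : ℝ) < (b : ℝ) ^ d := by
      have : 0 < b := hb.1.1
      positivity
    rw [le_div_iff₀ (by positivity)]
    calc (#(g b a) : ℝ) * ((b : ℝ) ^ d * H) ≤ (#(g b a) : ℝ) * ((b : ℝ) ^ d * ((H : ℝ) + 1)) := by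
          apply mul_le_mul_of_nonneg_left _ (by positivity)
          apply mul_le_mul_of_nonneg_left _ hb0.le
          linarith
      _ ≤ (2 * (2 * (H : ℝ)) + 1) ^ NC d := h5
      _ ≤ (5 * (H : ℝ)) ^ NC d := pow_le_pow_left₀ (by positivity) (by linarith) _
  have hAc : ∀ b ∈ B, (#(A b) : ℝ) ≤ 5 * b := by
    intro b hb
    rw [hB, mem_filter, mem_Icc] at hb
    have h3 : #(A b) ≤ #(Icc (-(2 * b : ℤ)) (2 * b)) := card_filter_le _ _
    rw [Int.card_Icc] at h3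
    have h4 : #(A b) ≤ 5 * b := by omega
    exact_mod_cast h4
  have hmain : (Nat.card {F | F ∈ PBox d H ∧ F ∈ RS d H} : ℝ) ≤
      ∑ b ∈ B, 5 * (5 * (H : ℝ)) ^ NC d / H * (H : ℝ) ^ (-((4 : ℝ) / 7)) * (1 / (b : ℝ) ^ 2) := by
    refine (by exact_mod_cast hcard : (Nat.card {F | F ∈ PBox d H ∧ F ∈ RS d H} : ℝ) ≤
      ((∑ b ∈ B, ∑ a ∈ A b, #(g b a) : ℕ) : ℝ)).trans ?_
    push_cast
    refine sum_le_sum (fun b hb => ?_)
    have hb' := hb
    rw [hB, mem_filter, mem_Icc] at hb'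
    have hb0 : (0 : ℝ) < b := by exact_mod_cast hb'.1.1
    calc ∑ a ∈ A b, (#(g b a) : ℝ) ≤ ∑ a ∈ A b, (5 * (H : ℝ)) ^ NC d / ((b : ℝ) ^ d * H) :=
          sum_le_sum (hgb b hb)
      _ = #(A b) * ((5 * (H : ℝ)) ^ NC d / ((b : ℝ) ^ d * H)) := by
          rw [sum_const, nsmul_eq_mul]
      _ ≤ (5 * b) * ((5 * (H : ℝ)) ^ NC d / ((b : ℝ) ^ d * H)) :=
          mul_le_mul_of_nonneg_right (hAc b hb) (by positivity)
      _ = 5 * (5 * (H : ℝ)) ^ NC d / H * (1 / (b : ℝ) ^ (d - 3)) * (1 / (b : ℝ) ^ 2) := by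
          have h6 : (b : ℝ) ^ d = b * (b : ℝ) ^ (d - 3) * (b : ℝ) ^ 2 := by
            rw [mul_assoc, ← pow_add, ← pow_succ']
            congr 1
            omega
          rw [h6]
          field_simp
      _ ≤ 5 * (5 * (H : ℝ)) ^ NC d / H * (H : ℝ) ^ (-((4 : ℝ) / 7)) * (1 / (b : ℝ) ^ 2) := by
          apply mul_le_mul_of_nonneg_right _ (by positivity)
          apply mul_le_mul_of_nonneg_left _ (by positivity)
          rw [Real.rpow_neg (by positivity), ← one_div]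
          apply one_div_le_one_div_of_le (by positivity)
          exact pow_bd d H b hd hH hb'.2 hb'.1.1
  refine hmain.trans ?_
  rw [← mul_sum]
  have hs : ∑ b ∈ B, 1 / (b : ℝ) ^ 2 ≤ 2 := by
    have h3 : ∑ b ∈ B, 1 / (b : ℝ) ^ 2 ≤ ∑ b ∈ Icc 1 (H + 1), 1 / (b : ℝ) ^ 2 :=
      sum_le_sum_of_subset_of_nonneg (filter_subset _ _) (fun _ _ _ => by positivity)
    have h4 := sum_sq H
    have h5 : 0 ≤ 1 / ((H : ℝ) + 1) := by positivity
    linarith
  refine (mul_le_mul_of_nonneg_left hs (by positivity)).trans (le_of_eq ?_)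
  have h7 : (H : ℝ) ^ ((NC d : ℝ) - 11 / 7) = (H : ℝ) ^ NC d * (H : ℝ) ^ (-((4 : ℝ) / 7)) / H := by
    have h8 : ((NC d : ℝ) - 11 / 7) = (NC d : ℝ) + (-((4 : ℝ) / 7)) - 1 := by ring
    rw [h8, Real.rpow_sub (by positivity), Real.rpow_add (by positivity), Real.rpow_natCast,
      Real.rpow_one]
  rw [h7, mul_pow]
  ring

end Pool.Agent.Q130.UG
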